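import Mathlib

set_option autoImplicit false

open Filter

namespace Pool.Agent.Results.MP_0ad3d3_nt.LimsupOmega

/-- powerful integers in `[n^2, (n+1)^2)` -/
def H (n : ℕ) : Set ℕ := {m : ℕ | n ^ 2 ≤ m ∧ m < (n + 1) ^ 2 ∧ 0 < m ∧
            ∀ p : ℕ, p.Prime → p ∣ m → p ^ 2 ∣ m}

lemma H_subset (n : ℕ) : H n ⊆ (Finset.Ico (n ^ 2) ((n + 1) ^ 2) : Set ℕ) := by
  intro m hm
  rw [Finset.coe_Ico, Set.mem_Ico]
  exact ⟨hm.1, hm.2.1⟩

lemma H_finite (n : ℕ) : (H n).Finite := (Finset.finite_toSet _).subset (H_subset n)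

lemma card_H_le (n : ℕ) : Nat.card (H n) ≤ 2 * n + 1 := by
  rw [Nat.card_coe_set_eq]
  refine (Set.ncard_le_ncard (H_subset n) (Finset.finite_toSet _)).trans ?_
  rw [Set.ncard_coe_finset, Nat.card_Ico]
  apply le_of_eq
  rw [show (n + 1) ^ 2 = n ^ 2 + (2 * n + 1) by ring]
  omega

/-- simultaneous approximation by pigeonhole -/
lemma pigeon {ι : Type*} [Fintype ι] (s : ι → ℝ) (Q : ι → ℕ) (hQ : ∀ i, 0 < Q i) :
    ∃ n : ℕ, 1 ≤ n ∧ n ≤ ∏ i, Q i ∧ ∀ i, ∃ a : ℤ, |(n : ℝ) * s i - a| < 1 / Q i := by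
  classical
  set M := ∏ i, Q i with hM
  have hlt : ∀ (i : ι) (n : ℕ), ⌊(Q i : ℝ) * Int.fract ((n : ℝ) * s i)⌋₊ < Q i := by
    intro i n
    have hq : (0 : ℝ) < Q i := by exact_mod_cast hQ i
    rw [Nat.floor_lt (by have := Int.fract_nonneg ((n : ℝ) * s i); positivity)]
    have := Int.fract_lt_one ((n : ℝ) * s i)
    nlinarith
  have hcard : Fintype.card (∀ i, Fin (Q i)) < Fintype.card (Fin (M + 1)) := by
    rw [Fintype.card_pi, Fintype.card_fin]
    simp [hM]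
  obtain ⟨x, y, hxy, hf⟩ := Fintype.exists_ne_map_eq_of_card_lt
    (fun n : Fin (M + 1) => (fun i => (⟨⌊(Q i : ℝ) * Int.fract (((n : ℕ) : ℝ) * s i)⌋₊,
      hlt i n⟩ : Fin (Q i)))) hcard
  wlog hlt' : (x : ℕ) < y generalizing x y with H
  · exact H y x hxy.symm hf.symm (by
      have : (x : ℕ) ≠ y := fun h => hxy (Fin.ext h)
      omega)
  refine ⟨(y : ℕ) - x, by omega, by have := y.2; omega, ?_⟩
  intro i
  refine ⟨⌊((y : ℕ) : ℝ) * s i⌋ - ⌊((x : ℕ) : ℝ) * s i⌋, ?_⟩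
  have h1 := congrFun hf i
  simp only [Fin.mk.injEq] at h1
  have hq : (0 : ℝ) < Q i := by exact_mod_cast hQ i
  set fx := Int.fract (((x : ℕ) : ℝ) * s i) with hfx
  set fy := Int.fract (((y : ℕ) : ℝ) * s i) with hfy
  have e : ((((y : ℕ) - (x : ℕ) : ℕ)) : ℝ) * s i - ((⌊((y : ℕ) : ℝ) * s i⌋ - ⌊((x : ℕ) : ℝ) * s i⌋ : ℤ) : ℝ) =
      fy - fx := by
    rw [Nat.cast_sub hlt'.le, hfx, hfy, Int.fract, Int.fract]
    push_cast
    ring
  rw [e]
  have a1 : (⌊(Q i : ℝ) * fx⌋₊ : ℝ) ≤ Q i * fx :=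
    Nat.floor_le (by have := Int.fract_nonneg (((x : ℕ) : ℝ) * s i); positivity)
  have a2 : (⌊(Q i : ℝ) * fy⌋₊ : ℝ) ≤ Q i * fy :=
    Nat.floor_le (by have := Int.fract_nonneg (((y : ℕ) : ℝ) * s i); positivity)
  have b1 := Nat.lt_floor_add_one ((Q i : ℝ) * fx)
  have b2 := Nat.lt_floor_add_one ((Q i : ℝ) * fy)
  rw [h1] at a1 b1
  have h2 : |(Q i : ℝ) * (fy - fx)| < 1 := by
    rw [abs_lt]
    constructor <;> linarith [mul_sub (Q i : ℝ) fy fx]
  rw [abs_mul, abs_of_pos hq] at h2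
  rw [lt_div_iff₀ hq]
  linarith [mul_comm (Q i : ℝ) |fy - fx|]

/-- the key construction: many powerful numbers near one square -/
lemma key (B : Finset ℕ) (hB : ∀ b ∈ B, b.Prime) :
    ∃ n : ℕ, n ≤ ∏ b ∈ B, b ^ 2 ∧ B.card ≤ 2 * Nat.card (H n) := by
  classical
  set s : B → ℝ := fun b => 1 / Real.sqrt (((b : ℕ) : ℝ) ^ 3) with hs
  have hsq : ∀ b : B, 0 < Real.sqrt (((b : ℕ) : ℝ) ^ 3) := by
    intro b
    have : 0 < (b : ℕ) := (hB b b.2).pos
    positivity
  have hle : ∀ b : B, Real.sqrt (((b : ℕ) : ℝ) ^ 3) ≤ (((b : ℕ) ^ 2 : ℕ) : ℝ) := by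
    intro b
    have h1 : 1 ≤ (b : ℕ) := (hB b b.2).one_lt.le
    have h2 : (1 : ℝ) ≤ (b : ℕ) := by exact_mod_cast h1
    rw [Real.sqrt_le_left (by positivity)]
    push_cast
    rw [← pow_mul]
    exact pow_le_pow_right₀ h2 (by norm_num)
  obtain ⟨n, hn1, hn2, hn3⟩ := pigeon s (fun b => (b : ℕ) ^ 2)
    (fun b => by have := (hB b b.2).pos; positivity)
  have hnpos : (1 : ℝ) ≤ n := by exact_mod_cast hn1
  -- the powerful numbers
  have hex : ∀ b : B, ∃ a : ℕ, 0 < a ∧ (n - 1) ^ 2 < a ^ 2 * (b : ℕ) ^ 3 ∧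
      a ^ 2 * (b : ℕ) ^ 3 < (n + 1) ^ 2 := by
    intro b
    obtain ⟨a, ha⟩ := hn3 b
    set t := Real.sqrt (((b : ℕ) : ℝ) ^ 3) with ht
    have htpos : 0 < t := hsq b
    have hlt : |(n : ℝ) * s b - a| < 1 / t := by
      refine ha.trans_le ?_
      exact one_div_le_one_div_of_le htpos (hle b)
    have hlt2 : |(n : ℝ) - a * t| < 1 := by
      have e : (n : ℝ) - a * t = ((n : ℝ) * s b - a) * t := by
        simp only [hs]
        rw [← ht]
        field_simp
      rw [e, abs_mul, abs_of_pos htpos]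
      rwa [lt_div_iff₀ htpos] at hlt
    rw [abs_lt] at hlt2
    have hapos : 0 < a := by
      by_contra hcon
      push Not at hcon
      have : (a : ℝ) ≤ 0 := by exact_mod_cast hcon
      nlinarith
    obtain ⟨m, rfl⟩ := Int.eq_ofNat_of_zero_le hapos.le
    have hm : 0 < m := by exact_mod_cast hapos
    have hsqt : t ^ 2 = ((b : ℕ) : ℝ) ^ 3 := Real.sq_sqrt (by positivity)
    have hmt : 0 < (m : ℝ) * t := by positivity
    have hcast : (((m : ℤ)) : ℝ) = (m : ℝ) := by norm_cast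
    rw [hcast] at hlt2
    have e2 : ((m ^ 2 * (b : ℕ) ^ 3 : ℕ) : ℝ) = ((m : ℝ) * t) ^ 2 := by
      push_cast
      rw [mul_pow, hsqt]
    refine ⟨m, hm, ?_, ?_⟩
    · have : (((n - 1) ^ 2 : ℕ) : ℝ) < ((m ^ 2 * (b : ℕ) ^ 3 : ℕ) : ℝ) := by
        rw [e2]
        push_cast [Nat.cast_sub hn1]
        have h0 : (0 : ℝ) ≤ (n : ℝ) - 1 := by linarith
        nlinarith
      exact_mod_cast this
    · have : ((m ^ 2 * (b : ℕ) ^ 3 : ℕ) : ℝ) < (((n + 1) ^ 2 : ℕ) : ℝ) := by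
        rw [e2]
        push_cast
        nlinarith
      exact_mod_cast this
  choose a ha1 ha2 ha3 using hex
  have hinj : Function.Injective (fun b : B => a b ^ 2 * (b : ℕ) ^ 3) := by
    intro b b' h
    by_contra hne
    have hne' : (b : ℕ) ≠ b' := fun h => hne (Subtype.ext h)
    have hp := hB b b.2
    have hp' := hB b' b'.2
    have h1 := congrArg (fun m => m.factorization (b : ℕ)) h
    simp only at h1
    rw [Nat.factorization_mul (by have := ha1 b; positivity) (pow_ne_zero _ hp.ne_zero),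
      Nat.factorization_mul (by have := ha1 b'; positivity) (pow_ne_zero _ hp'.ne_zero),
      Nat.factorization_pow, Nat.factorization_pow, Nat.factorization_pow,
      Nat.factorization_pow] at h1
    simp only [Finsupp.coe_add, Finsupp.coe_smul, Pi.add_apply, Pi.smul_apply, smul_eq_mul,
      hp.factorization_self] at h1
    have h2 : (b' : ℕ).factorization (b : ℕ) = 0 := by
      apply Nat.factorization_eq_zero_of_not_dvd
      intro hd
      exact hne' ((Nat.prime_dvd_prime_iff_eq hp hp').1 hd)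
    rw [h2] at h1
    omega
  have hmem : ∀ b : B, a b ^ 2 * (b : ℕ) ^ 3 ∈ H (n - 1) ∪ H n := by
    intro b
    have hp := hB b b.2
    have hpow : ∀ p : ℕ, p.Prime → p ∣ a b ^ 2 * (b : ℕ) ^ 3 → p ^ 2 ∣ a b ^ 2 * (b : ℕ) ^ 3 := by
      intro p hpp hd
      rcases (Nat.Prime.dvd_mul hpp).1 hd with h | h
      · exact Dvd.dvd.mul_right (pow_dvd_pow_of_dvd (hpp.dvd_of_dvd_pow h) 2) _
      · refine Dvd.dvd.mul_left ?_ _
        exact (pow_dvd_pow_of_dvd (hpp.dvd_of_dvd_pow h) 2).trans (pow_dvd_pow _ (by norm_num))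
    have hpos : 0 < a b ^ 2 * (b : ℕ) ^ 3 := by have := ha1 b; have := hp.pos; positivity
    rcases Nat.lt_or_ge (a b ^ 2 * (b : ℕ) ^ 3) (n ^ 2) with h | h
    · left
      refine ⟨(ha2 b).le, ?_, hpos, hpow⟩
      rwa [Nat.sub_add_cancel hn1]
    · right
      exact ⟨h, ha3 b, hpos, hpow⟩
  have hcardle : B.card ≤ (H (n - 1) ∪ H n).ncard := by
    have hfin : (H (n - 1) ∪ H n).Finite := (H_finite _).union (H_finite _)
    have h1 : Fintype.card B ≤ Nat.card (H (n - 1) ∪ H n : Set ℕ) := by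
      have := hfin.to_subtype
      rw [← Nat.card_eq_fintype_card]
      refine Nat.card_le_card_of_injective
        (fun b : B => (⟨a b ^ 2 * (b : ℕ) ^ 3, hmem b⟩ : (H (n - 1) ∪ H n : Set ℕ))) ?_
      intro b b' h
      exact hinj (congrArg Subtype.val h)
    rwa [Fintype.card_coe, Nat.card_coe_set_eq] at h1
  have hun := Set.ncard_union_le (H (n - 1)) (H n)
  have hprod : ∏ i : B, (fun b : B => (b : ℕ) ^ 2) i = ∏ b ∈ B, b ^ 2 :=
    Finset.prod_coe_sort B (fun b => b ^ 2)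
  rw [hprod] at hn2
  rw [← Nat.card_coe_set_eq, ← Nat.card_coe_set_eq, ← Nat.card_coe_set_eq] at hun
  rw [← Nat.card_coe_set_eq] at hcardle
  rcases le_total (Nat.card (H (n - 1))) (Nat.card (H n)) with h | h
  · exact ⟨n, hn2, by omega⟩
  · exact ⟨n - 1, by omega, by omega⟩

lemma eventually_pi : ∀ᶠ Y : ℕ in atTop, (Y : ℝ) / (2 * Real.log Y) ≤ (Nat.primeCounting Y : ℝ) := by
  have h1 : ∀ᶠ x : ℝ in atTop, Real.log x ≤ (1 / 10) * x := by
    have := Real.isLittleO_log_id_atTop.bound (show (0 : ℝ) < 1 / 10 by norm_num)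
    filter_upwards [this, eventually_ge_atTop 1] with x hx hx1
    simp only [id, Real.norm_eq_abs] at hx
    rw [abs_of_nonneg (by linarith : (0 : ℝ) ≤ x)] at hx
    exact (le_abs_self _).trans hx
  have h2 : ∀ᶠ Y : ℕ in atTop, Real.log ((Y : ℝ) + 1) ≤ (1 / 10) * ((Y : ℝ) + 1) := by
    have ht : Tendsto (fun Y : ℕ => (Y : ℝ) + 1) atTop atTop :=
      tendsto_natCast_atTop_atTop.atTop_add tendsto_const_nhds
    exact ht.eventually h1
  filter_upwards [h2, eventually_ge_atTop 10] with Y hY hY10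
  have hY' : (10 : ℝ) ≤ Y := by exact_mod_cast hY10
  have hlog : 0 < Real.log Y := Real.log_pos (by linarith)
  refine le_trans ?_ (Chebyshev.pi_ge Y)
  rw [div_le_div_iff₀ (by positivity) hlog]
  have hl2 := Real.log_two_gt_d9
  have : (Y : ℝ) / 2 ≤ Y * Real.log 2 - Real.log ((Y : ℝ) + 1) := by nlinarith
  nlinarith

lemma tendsto_Y : Tendsto (fun Y : ℕ => (Y : ℝ) / (4 * Real.log Y)) atTop atTop := by
  rw [tendsto_atTop]
  intro b
  have hb : 0 < |b| + 1 := by positivity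
  have h1 := Real.isLittleO_log_id_atTop.bound (show (0 : ℝ) < 1 / (4 * (|b| + 1)) by positivity)
  have h2 := (tendsto_natCast_atTop_atTop (R := ℝ)).eventually h1
  filter_upwards [h2, eventually_ge_atTop 2] with Y hY hY2
  have hY' : (2 : ℝ) ≤ Y := by exact_mod_cast hY2
  have hlog : 0 < Real.log Y := Real.log_pos (by linarith)
  simp only [id, Real.norm_eq_abs] at hY
  rw [abs_of_pos hlog, abs_of_nonneg (by linarith : (0 : ℝ) ≤ Y)] at hY
  rw [le_div_iff₀ (by positivity)]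
  have h3 : |b| + 1 ≤ |b| + 1 := le_refl _
  have h4 : 4 * (|b| + 1) * Real.log Y ≤ Y := by
    have := mul_le_mul_of_nonneg_left hY (show (0 : ℝ) ≤ 4 * (|b| + 1) by positivity)
    have h5 : 4 * (|b| + 1) * (1 / (4 * (|b| + 1)) * (Y : ℝ)) = Y := by
      field_simp
    linarith
  have h6 := le_abs_self b
  nlinarith

/-- For infinitely many `n` the interval `[n^2, (n+1)^2)` contains at least a constant times
`log n / log log n` powerful numbers. -/
theorem result : ∃ c : ℝ, 0 < c ∧ ∃ᶠ n : ℕ in atTop,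
    c * (Real.log n / Real.log (Real.log n)) ≤
      (Nat.card {m : ℕ | n ^ 2 ≤ m ∧ m < (n + 1) ^ 2 ∧ 0 < m ∧
            ∀ p : ℕ, p.Prime → p ∣ m → p ^ 2 ∣ m} : ℝ) := by
  refine ⟨1 / 12, by norm_num, ?_⟩
  rw [frequently_atTop]
  intro N0
  obtain ⟨Y, hY1, hY2, hY3⟩ := (eventually_pi.and ((tendsto_Y.eventually_ge_atTop
    (2 * (max N0 16 : ℕ) + 2 : ℝ)).and (eventually_ge_atTop 16))).exists
  have hY' : (16 : ℝ) ≤ Y := by exact_mod_cast hY3
  have hlogY : 0 < Real.log Y := Real.log_pos (by linarith)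
  obtain ⟨n, hn, hcard⟩ := key (Nat.primesLE Y) (fun b hb => Nat.prime_of_mem_primesLE hb)
  have hπ : (Nat.primesLE Y).card = Nat.primeCounting Y := by
    rw [Nat.primesLE_card_eq_primeCounting]
  rw [hπ] at hcard
  have hcardR : (Y : ℝ) / (4 * Real.log Y) ≤ (Nat.card (H n) : ℝ) := by
    have h1 : (Nat.primeCounting Y : ℝ) ≤ 2 * (Nat.card (H n) : ℝ) := by exact_mod_cast hcard
    have h2 : (Y : ℝ) / (4 * Real.log Y) = ((Y : ℝ) / (2 * Real.log Y)) / 2 := by
      field_simp; norm_num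
    rw [h2]; linarith
  have hnbig : max N0 16 ≤ n := by
    have h1 : (Nat.card (H n) : ℝ) ≤ 2 * n + 1 := by exact_mod_cast card_H_le n
    have h2 : (2 * (max N0 16 : ℕ) + 2 : ℝ) ≤ 2 * n + 1 := by linarith
    have h3 : 2 * (max N0 16) + 2 ≤ 2 * n + 1 := by exact_mod_cast h2
    omega
  refine ⟨n, (le_max_left _ _).trans hnbig, ?_⟩
  have hn16 : (16 : ℝ) ≤ n := by exact_mod_cast (le_max_right _ _).trans hnbig
  -- upper bound for n
  have hnle : (n : ℝ) ≤ 16 ^ Y := by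
    have h1 : ∏ b ∈ Nat.primesLE Y, b ^ 2 ≤ 16 ^ Y := by
      rw [Finset.prod_pow]
      have h2 : ∏ b ∈ Nat.primesLE Y, b = primorial Y := rfl
      rw [h2]
      calc primorial Y ^ 2 ≤ (4 ^ Y) ^ 2 := Nat.pow_le_pow_left (primorial_le_four_pow Y) 2
        _ = 16 ^ Y := by rw [← pow_mul, mul_comm, pow_mul]; norm_num
    exact_mod_cast hn.trans h1
  set x := Real.log n with hx
  have hxle : x ≤ 3 * Y := by
    have h1 : x ≤ Real.log (16 ^ Y) := Real.log_le_log (by linarith) hnle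
    rw [Real.log_pow] at h1
    have h2 : Real.log 16 ≤ 3 := by
      have : Real.log 16 = 4 * Real.log 2 := by
        rw [show (16 : ℝ) = 2 ^ 4 by norm_num, Real.log_pow]; norm_num
      rw [this]
      have := Real.log_two_lt_d9
      linarith
    nlinarith
  have hxge : Real.exp 1 ≤ x := by
    have h1 : Real.log 16 ≤ x := Real.log_le_log (by norm_num) hn16
    have h2 : Real.log 16 = 4 * Real.log 2 := by
      rw [show (16 : ℝ) = 2 ^ 4 by norm_num, Real.log_pow]; norm_num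
    have h3 := Real.log_two_gt_d9
    have h4 := Real.exp_one_lt_d9
    linarith
  have hx0 : 0 < x := (Real.exp_pos 1).trans_le hxge
  have hlogx : 1 ≤ Real.log x := by
    rw [← Real.log_exp 1]; exact Real.log_le_log (Real.exp_pos 1) hxge
  have h3Y : x ≤ 3 * Y := hxle
  have hanti := Real.log_div_self_antitoneOn (show x ∈ Set.Ici (Real.exp 1) from hxge)
    (show 3 * (Y : ℝ) ∈ Set.Ici (Real.exp 1) from hxge.trans h3Y) h3Y
  simp only at hanti
  have hY0 : (0 : ℝ) < Y := by linarith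
  have hlog3Y : Real.log Y ≤ Real.log (3 * Y) := Real.log_le_log hY0 (by linarith)
  have h5 : x / Real.log x ≤ 3 * Y / Real.log Y := by
    rw [div_le_div_iff₀ (by linarith) hlogY]
    rw [div_le_div_iff₀ (by positivity) hx0] at hanti
    nlinarith
  refine le_trans ?_ hcardR
  have h6 : (1 / 12 : ℝ) * (3 * Y / Real.log Y) = (Y : ℝ) / (4 * Real.log Y) := by
    field_simp; norm_num
  rw [← h6]
  exact mul_le_mul_of_nonneg_left h5 (by norm_num)

end Pool.Agent.Results.MP_0ad3d3_nt.LimsupOmega
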